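import Pool.Agent.Helper40.LS.H5

/-!
# Project LS: the sample of a row (module LS-F2)
-/

set_option autoImplicit false
open Classical Filter Topology

namespace Pool.Agent.Helper40.LS

/-- cells of a matching with symbol in `Y` -/
theorem h15_card_snd {n : ℕ} {P : Gr n} (hP : IsMatch P) (Y : Finset (Fin n)) :
    (P ∩ Finset.univ.filter fun e => e.2 ∈ Y).card = (Y ∩ syms P).card := by
  have h : Y ∩ syms P = (P ∩ Finset.univ.filter fun e => e.2 ∈ Y).image Prod.snd := by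
    ext s
    simp only [Finset.mem_inter, mem_syms, Finset.mem_image, Finset.mem_filter,
      Finset.mem_univ, true_and]
    constructor
    · rintro ⟨h1, c, hc⟩
      exact ⟨(c, s), ⟨hc, h1⟩, rfl⟩
    · rintro ⟨e, ⟨he, hY⟩, rfl⟩
      exact ⟨hY, e.1, he⟩
  rw [h, Finset.card_image_of_injOn]
  intro e he f hf hef
  exact hP.2 e (Finset.mem_inter.1 he).1 f (Finset.mem_inter.1 hf).1 hef

/-- one side of the sample -/
theorem h15_side {n : ℕ} {ρ τ h ζ z : ℝ} {B N P : Gr n} (hz : 0 < z) (hζ : 0 ≤ ζ)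
    (hN : IsMatch N) (hPN : P ⊆ N)
    (h1 : ∀ c, (ρ - h - 2 * ζ) * n ≤ ((nb B c).card : ℝ))
    (h2 : ∀ c c', c ≠ c' → ((nb B c ∩ nb B c').card : ℝ) ≤ (ρ ^ 2 + ζ) * n)
    (h3 : (1 - ζ - z - 2 * h) * n ≤ (N.card : ℝ))
    (hD1 : ∀ c, |((P ∩ Finset.univ.filter fun e => e.2 ∈ nb B c).card : ℝ) -
      2 * z * (N ∩ Finset.univ.filter fun e => e.2 ∈ nb B c).card| ≤ ζ * n)
    (hD2 : ∀ c c', |((P ∩ Finset.univ.filter fun e => e.2 ∈ nb B c ∩ nb B c').card : ℝ) -
      2 * z * (N ∩ Finset.univ.filter fun e => e.2 ∈ nb B c ∩ nb B c').card| ≤ ζ * n)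
    (hP : (P.card : ℝ) ≤ (1 + τ) * (2 * z * n))
    (hτ1 : ζ ≤ 2 * z * (τ - 3 * h - 3 * ζ - z)) (hh : 0 ≤ h) :
    Samp B (syms P) ρ τ (2 * z * n) := by
  have hPm : IsMatch P := hN.mono hPN
  have hn : (0 : ℝ) ≤ n := Nat.cast_nonneg n
  constructor
  · intro c
    have e1 := hD1 c
    rw [h15_card_snd hPm, h15_card_snd hN] at e1
    have e2 := (abs_le.1 e1).1
    have e3 : ((nb B c).card : ℝ) + N.card ≤ ((nb B c ∩ syms N).card : ℝ) + n := by
      have h4 : (nb B c).card + (syms N).card ≤ (nb B c ∩ syms N).card + n := by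
        rw [← Finset.card_union_add_card_inter, add_comm]
        have := Finset.card_le_univ (nb B c ∪ syms N)
        rw [Fintype.card_fin] at this
        omega
      rw [hN.card_syms] at h4
      exact_mod_cast h4
    have e4 := h1 c
    have e5 : (ρ - 3 * h - 3 * ζ - z) * n ≤ ((nb B c ∩ syms N).card : ℝ) := by nlinarith
    have e6 : 2 * z * ((ρ - 3 * h - 3 * ζ - z) * n) ≤ 2 * z * ((nb B c ∩ syms N).card : ℝ) :=
      mul_le_mul_of_nonneg_left e5 (by linarith)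
    have e7 : ζ * n ≤ 2 * z * (τ - 3 * h - 3 * ζ - z) * n := mul_le_mul_of_nonneg_right hτ1 hn
    nlinarith
  · intro c c' hc
    have e1 := hD2 c c'
    rw [h15_card_snd hPm, h15_card_snd hN] at e1
    have e2 := (abs_le.1 e1).2
    have e3 : ((nb B c ∩ nb B c' ∩ syms N).card : ℝ) ≤ (ρ ^ 2 + ζ) * n :=
      le_trans (by exact_mod_cast Finset.card_le_card Finset.inter_subset_left) (h2 c c' hc)
    have e4 : 2 * z * ((nb B c ∩ nb B c' ∩ syms N).card : ℝ) ≤ 2 * z * ((ρ ^ 2 + ζ) * n) :=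
      mul_le_mul_of_nonneg_left e3 (by linarith)
    have e7 : ζ * n ≤ 2 * z * (τ - 3 * h - 3 * ζ - z) * n := mul_le_mul_of_nonneg_right hτ1 hn
    have e8 : 0 ≤ z * h * n := mul_nonneg (mul_nonneg hz.le hh) hn
    have e9 : 0 ≤ z * ζ * n := mul_nonneg (mul_nonneg hz.le hζ) hn
    have e10 : 0 ≤ z * z * n := mul_nonneg (mul_nonneg hz.le hz.le) hn
    nlinarith
  · rw [hPm.card_syms]; exact hP

/-- LS-F2: the sample of a row (uses H5) -/
theorem samp_step {δ ε dA h z0 dC ζ : ℝ} (P : Par δ ε dA h z0 dC ζ) :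
    ∀ᶠ n : ℕ in atTop, ∀ (B N : Gr n) (z : ℝ), z0 ≤ z → z ≤ h ^ 2 → IsMatch N →
      (∀ c, (δ / 8 - h - 2 * ζ) * n ≤ ((nb B c).card : ℝ)) →
      (∀ s, (δ / 8 - h - 2 * ζ) * n ≤ ((nb (tr B) s).card : ℝ)) →
      (∀ c c', c ≠ c' → ((nb B c ∩ nb B c').card : ℝ) ≤ ((δ / 8) ^ 2 + ζ) * n) →
      (∀ c c', c ≠ c' → ((nb (tr B) c ∩ nb (tr B) c').card : ℝ) ≤ ((δ / 8) ^ 2 + ζ) * n) →
      (1 - ζ - z - 2 * h) * n ≤ (N.card : ℝ) →
      ∃ P0 ⊆ N, Samp B (syms P0) (δ / 8) (tau δ) (2 * z * n) ∧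
        Samp (tr B) (cols P0) (δ / 8) (tau δ) (2 * z * n) ∧
        (1 - tau δ) * (2 * z * n) ≤ (P0.card : ℝ) := by
  filter_upwards [sample ζ P.ζ0, eventually_ge_atTop 1] with n hn hn1
  intro B N z hz0 hz1 hN h1 h1' h2 h2' h3
  have hρ0 : 0 < δ / 8 := by linarith [P.δ0]
  have hρ1 : δ / 8 ≤ 1 / 8 := by linarith [P.δ1]
  have hρ2 : (δ / 8) ^ 2 ≤ 1 / 64 := by nlinarith
  have hρ3 : 0 < (δ / 8) ^ 2 := by positivity
  have hh := P.h2
  have hh0 := P.h0
  have hζ0 := P.ζ0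
  have hζ1 := P.ζ1
  have hζ3 := P.ζ3
  have hz00 := P.zpos
  have hzp : 0 < z := lt_of_lt_of_le hz00 hz0
  have hzh : z ≤ h / 1280000 := by nlinarith
  have hz2 : 2 * z ≤ 1 := by nlinarith
  have key1 : ζ ≤ (δ / 8) ^ 2 * z / 4000 := hζ3.trans (by
    have := mul_le_mul_of_nonneg_left hz0 hρ3.le
    linarith)
  have key : ζ ≤ 2 * z * (tau δ - 3 * h - 3 * ζ - z) := by
    unfold tau
    have e1 : (δ / 8) ^ 2 / 8000 ≤ (δ / 8) ^ 2 / 2500 - 3 * h - 3 * ζ - z := by
      nlinarith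
    have e2 := mul_le_mul_of_nonneg_left e1 (show 0 ≤ 2 * z by linarith)
    nlinarith
  have hnn : (0 : ℝ) ≤ n := Nat.cast_nonneg n
  have hNn : N.card ≤ n := by
    rw [← hN.card_cols]
    exact (Finset.card_le_univ _).trans (by rw [Fintype.card_fin])
  set S1 : Fin n → Gr n := fun c => Finset.univ.filter fun e => e.2 ∈ nb B c
  set S2 : Fin n × Fin n → Gr n := fun q =>
    Finset.univ.filter fun e => e.2 ∈ nb B q.1 ∩ nb B q.2
  set S3 : Fin n → Gr n := fun c => Finset.univ.filter fun e => e.1 ∈ nb (tr B) c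
  set S4 : Fin n × Fin n → Gr n := fun q =>
    Finset.univ.filter fun e => e.1 ∈ nb (tr B) q.1 ∩ nb (tr B) q.2
  obtain ⟨Q, hQN, hQ⟩ := hn N
    ((Finset.univ.image S1 ∪ Finset.univ.image S2) ∪ ((Finset.univ.image S3 ∪
      Finset.univ.image S4) ∪ {Finset.univ})) (2 * z) hNn (by
      have a1 : (Finset.univ.image S1).card ≤ n := by
        refine Finset.card_image_le.trans ?_
        simp
      have a2 : (Finset.univ.image S2).card ≤ n * n := by
        refine Finset.card_image_le.trans ?_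
        simp
      have a3 : (Finset.univ.image S3).card ≤ n := by
        refine Finset.card_image_le.trans ?_
        simp
      have a4 : (Finset.univ.image S4).card ≤ n * n := by
        refine Finset.card_image_le.trans ?_
        simp
      have b1 := Finset.card_union_le (Finset.univ.image S1) (Finset.univ.image S2)
      have b2 := Finset.card_union_le (Finset.univ.image S3) (Finset.univ.image S4)
      have b3 := Finset.card_union_le (Finset.univ.image S3 ∪ Finset.univ.image S4)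
        ({Finset.univ} : Finset (Gr n))
      have b4 := Finset.card_union_le (Finset.univ.image S1 ∪ Finset.univ.image S2)
        ((Finset.univ.image S3 ∪ Finset.univ.image S4) ∪ {Finset.univ})
      rw [Finset.card_singleton] at b3
      nlinarith) (by linarith) hz2
  have hQ1 : ∀ c, |((Q ∩ S1 c).card : ℝ) - 2 * z * (N ∩ S1 c).card| ≤ ζ * n := fun c =>
    hQ _ (Finset.mem_union_left _ (Finset.mem_union_left _ (Finset.mem_image_of_mem _
      (Finset.mem_univ _))))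
  have hQ2 : ∀ q, |((Q ∩ S2 q).card : ℝ) - 2 * z * (N ∩ S2 q).card| ≤ ζ * n := fun c =>
    hQ _ (Finset.mem_union_left _ (Finset.mem_union_right _ (Finset.mem_image_of_mem _
      (Finset.mem_univ _))))
  have hQ3 : ∀ c, |((Q ∩ S3 c).card : ℝ) - 2 * z * (N ∩ S3 c).card| ≤ ζ * n := fun c =>
    hQ _ (Finset.mem_union_right _ (Finset.mem_union_left _ (Finset.mem_union_left _
      (Finset.mem_image_of_mem _ (Finset.mem_univ _)))))
  have hQ4 : ∀ q, |((Q ∩ S4 q).card : ℝ) - 2 * z * (N ∩ S4 q).card| ≤ ζ * n := fun c =>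
    hQ _ (Finset.mem_union_right _ (Finset.mem_union_left _ (Finset.mem_union_right _
      (Finset.mem_image_of_mem _ (Finset.mem_univ _)))))
  have hQ5 : |((Q.card : ℝ)) - 2 * z * N.card| ≤ ζ * n := by
    have := hQ Finset.univ (Finset.mem_union_right _ (Finset.mem_union_right _
      (Finset.mem_singleton_self _)))
    rwa [Finset.inter_univ, Finset.inter_univ] at this
  have hNr : (N.card : ℝ) ≤ n := by exact_mod_cast hNn
  have hζn : ζ * n ≤ 2 * z * (tau δ - 3 * h - 3 * ζ - z) * n := mul_le_mul_of_nonneg_right key hnn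
  have e8 : 0 ≤ z * h * n := mul_nonneg (mul_nonneg hzp.le hh0.le) hnn
  have e9 : 0 ≤ z * ζ * n := mul_nonneg (mul_nonneg hzp.le hζ0.le) hnn
  have e10 : 0 ≤ z * z * n := mul_nonneg (mul_nonneg hzp.le hzp.le) hnn
  have e11 : 2 * z * (N.card : ℝ) ≤ 2 * z * n := mul_le_mul_of_nonneg_left hNr (by linarith)
  have hQu : (Q.card : ℝ) ≤ (1 + tau δ) * (2 * z * n) := by
    have := (abs_le.1 hQ5).2
    nlinarith
  have hQl : (1 - tau δ) * (2 * z * n) ≤ (Q.card : ℝ) := by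
    have := (abs_le.1 hQ5).1
    have e12 : 2 * z * ((1 - ζ - z - 2 * h) * n) ≤ 2 * z * (N.card : ℝ) :=
      mul_le_mul_of_nonneg_left h3 (by linarith)
    nlinarith
  refine ⟨Q, hQN, ?_, ?_, hQl⟩
  · exact h15_side hzp hζ0.le hN hQN h1 h2 h3 hQ1 (fun c c' => hQ2 (c, c')) hQu key hh0.le
  · rw [← syms_tr]
    have ht : ∀ (G : Gr n) (Y : Finset (Fin n)),
        (tr G ∩ Finset.univ.filter fun e => e.2 ∈ Y).card =
          (G ∩ Finset.univ.filter fun e => e.1 ∈ Y).card := by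
      intro G Y
      rw [← card_tr]
      congr 1
      ext ⟨a, b⟩
      simp [mem_tr']
    refine h15_side hzp hζ0.le hN.tr (tr_subset hQN) h1' h2' (by rwa [card_tr]) (fun c => ?_)
      (fun c c' => ?_) (by rwa [card_tr]) key hh0.le
    · rw [ht, ht]; exact hQ3 c
    · rw [ht, ht]; exact hQ4 (c, c')

end Pool.Agent.Helper40.LS
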